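import Mathlib

/-!
Definitions for the Borel fractional chromatic number of hyperfinite 3-regular forests.
-/

set_option autoImplicit false

namespace Pool.Agent.Helper47.Kneser

/-- `G` is a hyperfinite Borel 3-regular forest on the measurable space `X`: the edge relation is
Borel, every vertex has exactly three neighbours, there are no cycles, and the connectedness
relation is the union of an increasing sequence of Borel equivalence relations with finite
classes (word for word as in the frozen statement). -/
def IsHFForest (X : Type) [MeasurableSpace X] (G : SimpleGraph X) : Prop :=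
  MeasurableSet {p : X × X | G.Adj p.1 p.2} ∧
  (∀ x, (G.neighborSet x).ncard = 3) ∧
  G.IsAcyclic ∧
  (∃ F : ℕ → X → X → Prop,
    (∀ m, Equivalence (F m)) ∧
    (∀ m, MeasurableSet {p : X × X | F m p.1 p.2}) ∧
    (∀ m x, {y | F m x y}.Finite) ∧
    (∀ m x y, F m x y → F (m + 1) x y) ∧
    (∀ x y, G.Reachable x y ↔ ∃ m, F m x y))

/-- A Borel homomorphism from `G` to the Kneser graph `K(n,k)`. -/
def KneserHom {X : Type} [MeasurableSpace X] (G : SimpleGraph X) (n k : ℕ) : Prop :=
  ∃ f : X → Finset (Fin n), (∀ x, (f x).card = k) ∧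
    (∀ s, MeasurableSet (f ⁻¹' {s})) ∧
    (∀ x y, G.Adj x y → Disjoint (f x) (f y))

/-- A Borel homomorphism from `G` to the Schrijver graph `K'(n,k)`: the values are `k`-subsets
without two cyclically consecutive elements of `ℤ/n`. -/
def SchrijverHom {X : Type} [MeasurableSpace X] (G : SimpleGraph X) (n k : ℕ) : Prop :=
  ∃ f : X → Finset (Fin n), (∀ x, (f x).card = k) ∧
    (∀ x, ∀ i ∈ f x, ∀ j ∈ f x, (j : ℕ) ≠ ((i : ℕ) + 1) % n) ∧
    (∀ s, MeasurableSet (f ⁻¹' {s})) ∧
    (∀ x y, G.Adj x y → Disjoint (f x) (f y))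

/-- `N` Borel partial proper 2-colourings of `G` (`none` = uncoloured) such that every vertex is
uncoloured in at most `ε N` of them. -/
def PartialTwoColourings {X : Type} [MeasurableSpace X] (G : SimpleGraph X) (N : ℕ) (ε : ℝ) :
    Prop :=
  ∃ c : Fin N → X → Option Bool,
    (∀ i s, MeasurableSet (c i ⁻¹' {s})) ∧
    (∀ i x y, G.Adj x y → c i x = none ∨ c i x ≠ c i y) ∧
    (∀ x, ((Finset.univ.filter fun i => c i x = none).card : ℝ) ≤ ε * N)

theorem SchrijverHom.kneserHom {X : Type} [MeasurableSpace X] {G : SimpleGraph X} {n k : ℕ}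
    (h : SchrijverHom G n k) : KneserHom G n k := by
  obtain ⟨f, h1, -, h3, h4⟩ := h
  exact ⟨f, h1, h3, h4⟩

end Pool.Agent.Helper47.Kneser
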