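import Mathlib

/-!
Measurability of neighbourhood conditions in a 3-regular Borel graph on a standard Borel space.
-/

set_option autoImplicit false

open MeasureTheory Set

namespace Pool.Agent.Helper47.Kneser

/-- The set of vertices with a neighbour in the measurable set `B` is measurable, for a
3-regular Borel graph on a standard Borel space. -/
theorem measurableSet_exists_adj {X : Type*} [MeasurableSpace X] [StandardBorelSpace X]
    (G : SimpleGraph X) (hG : MeasurableSet {p : X × X | G.Adj p.1 p.2})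
    (h3 : ∀ x, (G.neighborSet x).ncard = 3) {B : Set X} (hB : MeasurableSet B) :
    MeasurableSet {x | ∃ y, G.Adj x y ∧ y ∈ B} := by
  let := upgradeStandardBorel X
  have h1 : AnalyticSet {x | ∃ y, G.Adj x y ∧ y ∈ B} := by
    have hm : MeasurableSet ({p : X × X | G.Adj p.1 p.2} ∩ Prod.snd ⁻¹' B) :=
      hG.inter (measurable_snd hB)
    have := hm.analyticSet_image (f := (Prod.fst : X × X → X)) measurable_fst
    convert this using 1
    ext x
    constructor
    · rintro ⟨y, hy, hyB⟩
      exact ⟨(x, y), ⟨hy, hyB⟩, rfl⟩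
    · rintro ⟨⟨a, b⟩, ⟨hab, hb⟩, rfl⟩
      exact ⟨b, hab, hb⟩
  have h2 : AnalyticSet {x | ∃ y, G.Adj x y ∧ y ∈ B}ᶜ := by
    let Q : Set (X × (X × X × X)) :=
      {q | G.Adj q.1 q.2.1 ∧ G.Adj q.1 q.2.2.1 ∧ G.Adj q.1 q.2.2.2 ∧
        q.2.1 ≠ q.2.2.1 ∧ q.2.1 ≠ q.2.2.2 ∧ q.2.2.1 ≠ q.2.2.2 ∧
        q.2.1 ∉ B ∧ q.2.2.1 ∉ B ∧ q.2.2.2 ∉ B}
    have hQ : MeasurableSet Q := by
      have ha : ∀ g : X × (X × X × X) → X, Measurable g →
          MeasurableSet {q : X × (X × X × X) | G.Adj q.1 (g q)} := fun g hg =>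
        (measurable_fst.prodMk hg) hG
      have hne : ∀ g g' : X × (X × X × X) → X, Measurable g → Measurable g' →
          MeasurableSet {q : X × (X × X × X) | g q ≠ g' q} := fun g g' hg hg' =>
        (measurableSet_eq_fun hg hg').compl
      have hnB : ∀ g : X × (X × X × X) → X, Measurable g →
          MeasurableSet {q : X × (X × X × X) | g q ∉ B} := fun g hg => (hg hB).compl
      have m1 : Measurable fun q : X × (X × X × X) => q.2.1 := by fun_prop
      have m2 : Measurable fun q : X × (X × X × X) => q.2.2.1 := by fun_prop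
      have m3 : Measurable fun q : X × (X × X × X) => q.2.2.2 := by fun_prop
      exact (ha _ m1).inter ((ha _ m2).inter ((ha _ m3).inter ((hne _ _ m1 m2).inter
        ((hne _ _ m1 m3).inter ((hne _ _ m2 m3).inter ((hnB _ m1).inter
          ((hnB _ m2).inter (hnB _ m3))))))))
    have := hQ.analyticSet_image (f := (Prod.fst : X × (X × X × X) → X)) measurable_fst
    convert this using 1
    ext x
    constructor
    · intro hx
      obtain ⟨a, b, c, hab, hac, hbc, habc⟩ := Set.ncard_eq_three.1 (h3 x)
      have hN : ∀ z, z ∈ G.neighborSet x → z ∉ B := fun z hz hzB => hx ⟨z, hz, hzB⟩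
      have ha : a ∈ G.neighborSet x := by rw [habc]; simp
      have hb : b ∈ G.neighborSet x := by rw [habc]; simp
      have hc : c ∈ G.neighborSet x := by rw [habc]; simp
      exact ⟨(x, (a, b, c)), ⟨ha, hb, hc, hab, hac, hbc, hN a ha, hN b hb, hN c hc⟩, rfl⟩
    · rintro ⟨⟨x', a, b, c⟩, ⟨ha, hb, hc, hab, hac, hbc, haB, hbB, hcB⟩, rfl⟩
      rintro ⟨y, hy, hyB⟩
      have hsub : ({a, b, c} : Set X) ⊆ G.neighborSet x' := by
        intro z hz
        rcases hz with rfl | rfl | rfl
        · exact ha
        · exact hb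
        · exact hc
      have hfin : (G.neighborSet x').Finite := by
        apply Set.finite_of_ncard_ne_zero
        rw [h3]; norm_num
      have hcard : ({a, b, c} : Set X).ncard = 3 :=
        Set.ncard_eq_three.2 ⟨a, b, c, hab, hac, hbc, rfl⟩
      have heq : ({a, b, c} : Set X) = G.neighborSet x' :=
        Set.eq_of_subset_of_ncard_le hsub (by rw [h3, hcard]) hfin
      have : y ∈ ({a, b, c} : Set X) := by rw [heq]; exact hy
      rcases this with rfl | rfl | rfl
      · exact haB hyB
      · exact hbB hyB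
      · exact hcB hyB
  exact h1.measurableSet_of_compl h2

end Pool.Agent.Helper47.Kneser
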