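import Pool.Agent.Helper47.Kneser.Meas

/-!
Recolouring: from a Borel homomorphism to the Kneser graph `K(n,k)`, `n < 3k`, of a 3-regular
Borel graph, to a Borel homomorphism to a Schrijver graph with about the same ratio.
-/

set_option autoImplicit false

open MeasureTheory Set

namespace Pool.Agent.Helper47.Kneser

/-- Choose `k` elements of a finite set (or return the set itself). -/
noncomputable def pick {α : Type*} [DecidableEq α] (k : ℕ) (s : Finset α) : Finset α :=
  if h : k ≤ s.card then (Finset.exists_subset_card_eq h).choose else s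

theorem pick_subset {α : Type*} [DecidableEq α] (k : ℕ) (s : Finset α) : pick k s ⊆ s := by
  unfold pick
  split_ifs with h
  · exact (Finset.exists_subset_card_eq h).choose_spec.1
  · exact Finset.Subset.refl s

theorem pick_card {α : Type*} [DecidableEq α] (k : ℕ) (s : Finset α) (h : k ≤ s.card) :
    (pick k s).card = k := by
  unfold pick
  rw [dif_pos h]
  exact (Finset.exists_subset_card_eq h).choose_spec.2

/-- The combined set of colours: `z = i * (2m) + p` with `p` odd and `i ∈ A`, or `p ≥ 2` even and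
`i ∈ B`. -/
def comb {n : ℕ} (m : ℕ) (A B : Finset (Fin n)) : Finset (Fin (n * (2 * m))) :=
  Finset.univ.filter fun z => (z : ℕ) % (2 * m) ≠ 0 ∧
    ((finProdFinEquiv.symm z).1 ∈ A ∧ (z : ℕ) % (2 * m) % 2 = 1 ∨
      (finProdFinEquiv.symm z).1 ∈ B ∧ (z : ℕ) % (2 * m) % 2 = 0)

theorem comb_card {n : ℕ} (m : ℕ) (hm : 0 < m) (A B : Finset (Fin n)) :
    (m - 1) * (A.card + B.card) ≤ (comb m A B).card := by
  classical
  -- inject
  let g1 : Fin n × Fin (m-1) → Fin (n * (2 * m)) := fun q =>
    finProdFinEquiv (q.1, ⟨2 * q.2.1 + 1, by have := q.2.2; omega⟩)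
  let g2 : Fin n × Fin (m-1) → Fin (n * (2 * m)) := fun q =>
    finProdFinEquiv (q.1, ⟨2 * q.2.1 + 2, by have := q.2.2; omega⟩)
  have hg1 : Function.Injective g1 := by
    intro a b h
    have := finProdFinEquiv.injective h
    simp only [Prod.mk.injEq, Fin.mk.injEq] at this
    obtain ⟨h1, h2⟩ := this
    exact Prod.ext h1 (Fin.ext (by omega))
  have hg2 : Function.Injective g2 := by
    intro a b h
    have := finProdFinEquiv.injective h
    simp only [Prod.mk.injEq, Fin.mk.injEq] at this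
    obtain ⟨h1, h2⟩ := this
    exact Prod.ext h1 (Fin.ext (by omega))
  have hsub : (A ×ˢ (Finset.univ : Finset (Fin (m-1)))).image g1 ∪
      (B ×ˢ (Finset.univ : Finset (Fin (m-1)))).image g2 ⊆ comb m A B := by
    intro z hz
    rw [Finset.mem_union, Finset.mem_image, Finset.mem_image] at hz
    rw [comb, Finset.mem_filter]
    refine ⟨Finset.mem_univ _, ?_⟩
    rcases hz with ⟨q, hq, rfl⟩ | ⟨q, hq, rfl⟩
    · have hv : ((g1 q : Fin (n * (2 * m))) : ℕ) % (2 * m) = 2 * q.2.1 + 1 := by
        simp only [g1, finProdFinEquiv_apply_val]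
        rw [Nat.add_mul_mod_self_left]
        exact Nat.mod_eq_of_lt (by have := q.2.2; omega)
      have hs : (finProdFinEquiv.symm (g1 q)).1 = q.1 := by
        simp only [g1, Equiv.symm_apply_apply]
      rw [hv, hs]
      refine ⟨by omega, Or.inl ⟨(Finset.mem_product.1 hq).1, by omega⟩⟩
    · have hv : ((g2 q : Fin (n * (2 * m))) : ℕ) % (2 * m) = 2 * q.2.1 + 2 := by
        simp only [g2, finProdFinEquiv_apply_val]
        rw [Nat.add_mul_mod_self_left]
        exact Nat.mod_eq_of_lt (by have := q.2.2; omega)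
      have hs : (finProdFinEquiv.symm (g2 q)).1 = q.1 := by
        simp only [g2, Equiv.symm_apply_apply]
      rw [hv, hs]
      refine ⟨by omega, Or.inr ⟨(Finset.mem_product.1 hq).1, by omega⟩⟩
  have hdisj : Disjoint ((A ×ˢ (Finset.univ : Finset (Fin (m-1)))).image g1)
      ((B ×ˢ (Finset.univ : Finset (Fin (m-1)))).image g2) := by
    rw [Finset.disjoint_left]
    intro z h1 h2
    rw [Finset.mem_image] at h1 h2
    obtain ⟨q, hq, rfl⟩ := h1
    obtain ⟨r, hr, h⟩ := h2
    have := finProdFinEquiv.injective h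
    simp only [Prod.mk.injEq, Fin.mk.injEq] at this
    omega
  have := Finset.card_le_card hsub
  rw [Finset.card_union_of_disjoint hdisj, Finset.card_image_of_injective _ hg1,
    Finset.card_image_of_injective _ hg2, Finset.card_product, Finset.card_product,
    Finset.card_univ, Fintype.card_fin] at this
  calc (m - 1) * (A.card + B.card) = A.card * (m-1) + B.card * (m-1) := by ring
    _ ≤ _ := this

theorem comb_stable {n : ℕ} (m : ℕ) (A B : Finset (Fin n)) (hAB : Disjoint A B)
    (z w : Fin (n * (2 * m))) (hz : z ∈ comb m A B) (hw : w ∈ comb m A B) :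
    (w : ℕ) ≠ ((z : ℕ) + 1) % (n * (2 * m)) := by
  intro hwz
  rw [comb, Finset.mem_filter] at hz hw
  obtain ⟨-, hz0, hz⟩ := hz
  obtain ⟨-, hw0, hw⟩ := hw
  have hzlt := z.2
  have hm : 0 < m := by
    rcases Nat.eq_zero_or_pos m with rfl | h
    · omega
    · exact h
  -- the value of the first coordinate
  have hfst : ∀ u : Fin (n * (2 * m)), ((finProdFinEquiv.symm u).1 : ℕ) = (u : ℕ) / (2 * m) := by
    intro u
    rfl
  by_cases hlast : (z : ℕ) % (2 * m) = 2 * m - 1
  · apply hw0
    rw [hwz, Nat.mod_mod_of_dvd _ (Dvd.intro_left n rfl)]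
    rw [Nat.add_mod, hlast]
    rcases Nat.lt_or_ge 1 (2 * m) with h | h
    · rw [Nat.mod_eq_of_lt h, Nat.sub_add_cancel (by omega), Nat.mod_self]
    · omega
  · have hmod : (z : ℕ) % (2 * m) < 2 * m := Nat.mod_lt _ (by omega)
    have hdm := Nat.div_add_mod (z : ℕ) (2 * m)
    have hlt : (z : ℕ) + 1 < n * (2 * m) := by
      have h1 : (z : ℕ) / (2 * m) < n := by
        rw [← hfst]; exact (finProdFinEquiv.symm z).1.2
      have h2 : (2 * m) * ((z : ℕ) / (2 * m)) + 2 * m ≤ n * (2 * m) := by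
        calc (2 * m) * ((z : ℕ) / (2 * m)) + 2 * m = (2 * m) * ((z : ℕ) / (2 * m) + 1) := by ring
          _ ≤ (2 * m) * n := Nat.mul_le_mul_left _ h1
          _ = n * (2 * m) := by ring
      omega
    rw [Nat.mod_eq_of_lt hlt] at hwz
    have hw_mod : (w : ℕ) % (2 * m) = (z : ℕ) % (2 * m) + 1 := by
      rw [hwz]
      conv_lhs => rw [← hdm, add_assoc, Nat.mul_add_mod]
      exact Nat.mod_eq_of_lt (by omega)
    have hw_div : (w : ℕ) / (2 * m) = (z : ℕ) / (2 * m) := by
      rw [hwz]
      conv_lhs => rw [← hdm, add_assoc]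
      rw [Nat.mul_add_div (by omega), Nat.div_eq_of_lt (a := (z : ℕ) % (2 * m) + 1) (by omega),
        add_zero]
    have hfe : (finProdFinEquiv.symm w).1 = (finProdFinEquiv.symm z).1 := by
      apply Fin.ext
      rw [hfst, hfst, hw_div]
    rw [hfe, hw_mod] at hw
    rw [Finset.disjoint_left] at hAB
    rcases hz with ⟨h1, h2⟩ | ⟨h1, h2⟩
    · rcases hw with ⟨h3, h4⟩ | ⟨h3, h4⟩
      · omega
      · exact hAB h1 h3
    · rcases hw with ⟨h3, h4⟩ | ⟨h3, h4⟩
      · exact hAB h3 h1
      · omega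

theorem comb_disjoint {n : ℕ} (m : ℕ) (A B A' B' : Finset (Fin n)) (hA : Disjoint A A')
    (hB : Disjoint B B') : Disjoint (comb m A B) (comb m A' B') := by
  rw [Finset.disjoint_left] at hA hB ⊢
  intro z hz hz'
  rw [comb, Finset.mem_filter] at hz hz'
  rcases hz.2.2 with ⟨h1, h2⟩ | ⟨h1, h2⟩
  · rcases hz'.2.2 with ⟨h3, h4⟩ | ⟨h3, h4⟩
    · exact hA h1 h3
    · omega
  · rcases hz'.2.2 with ⟨h3, h4⟩ | ⟨h3, h4⟩
    · omega
    · exact hB h1 h3

end Pool.Agent.Helper47.Kneser
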