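import Pool.Agent.Helper47.Kneser.Defs

/-!
Countable disjoint unions of standard Borel spaces and of Borel graphs.
-/

set_option autoImplicit false

open MeasureTheory Set

namespace Pool.Agent.Helper47.Kneser

theorem measurableSet_sigma_iff {ι : Type*} {X : ι → Type*} [∀ i, MeasurableSpace (X i)]
    (s : Set (Σ i, X i)) :
    MeasurableSet s ↔ ∀ i, MeasurableSet (Sigma.mk i ⁻¹' s) := by
  have : MeasurableSet s ↔ MeasurableSet[⨅ a, MeasurableSpace.map (Sigma.mk a) inferInstance] s :=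
    Iff.rfl
  rw [this, MeasurableSpace.measurableSet_iInf]
  rfl

/-- A countable disjoint union of standard Borel spaces is standard Borel. -/
instance standardBorel_sigma {ι : Type*} [Countable ι] {X : ι → Type*}
    [∀ i, MeasurableSpace (X i)] [∀ i, StandardBorelSpace (X i)] :
    StandardBorelSpace (Σ i, X i) := by
  let := fun i => upgradeStandardBorel (X i)
  have hB : BorelSpace (Σ i, X i) := by
    constructor
    apply le_antisymm
    · intro s hs
      rw [measurableSet_sigma_iff] at hs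
      have : s = ⋃ i, Sigma.mk i '' (Sigma.mk i ⁻¹' s) := by
        ext ⟨i, x⟩
        simp only [mem_iUnion, mem_image, mem_preimage]
        constructor
        · intro h; exact ⟨i, x, h, rfl⟩
        · rintro ⟨j, y, hy, heq⟩
          rw [← heq]; exact hy
      rw [this]
      have : @MeasurableSet (Σ i, X i) (borel _) (⋃ i, Sigma.mk i '' (Sigma.mk i ⁻¹' s)) := by
        apply MeasurableSet.iUnion
        intro i
        let : MeasurableSpace (Σ i, X i) := borel _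
        have hb : BorelSpace (Σ i, X i) := ⟨rfl⟩
        exact (Topology.IsOpenEmbedding.sigmaMk (i := i)).measurableEmbedding.measurableSet_image.2
          (hs i)
      exact this
    · intro s hs
      rw [measurableSet_sigma_iff]
      intro i
      have hc : Continuous (Sigma.mk i : X i → Σ i, X i) := continuous_sigmaMk
      have h1 := hc.borel_measurable hs
      rwa [← BorelSpace.measurable_eq (α := X i)] at h1
  infer_instance

/-- The disjoint union of a family of graphs. -/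
def sigmaGraph {ι : Type*} {X : ι → Type*} (G : ∀ i, SimpleGraph (X i)) :
    SimpleGraph (Σ i, X i) where
  Adj p q := ∃ (i : ι) (x y : X i), p = ⟨i, x⟩ ∧ q = ⟨i, y⟩ ∧ (G i).Adj x y
  symm := ⟨by
    rintro _ _ ⟨i, x, y, rfl, rfl, h⟩
    exact ⟨i, y, x, rfl, rfl, h.symm⟩⟩
  loopless := ⟨by
    rintro _ ⟨i, x, y, rfl, h, hadj⟩
    rw [Sigma.mk.injEq] at h
    obtain rfl := eq_of_heq h.2
    exact (G i).loopless.irrefl _ hadj⟩

section
variable {ι : Type*} {X : ι → Type*} (G : ∀ i, SimpleGraph (X i))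

theorem sigmaGraph_adj (i : ι) (x y : X i) :
    (sigmaGraph G).Adj ⟨i, x⟩ ⟨i, y⟩ ↔ (G i).Adj x y := by
  constructor
  · rintro ⟨j, a, b, h1, h2, h3⟩
    rw [Sigma.mk.injEq] at h1 h2
    obtain ⟨rfl, h1⟩ := h1
    obtain rfl := eq_of_heq h1
    obtain rfl := eq_of_heq h2.2
    exact h3
  · intro h
    exact ⟨i, x, y, rfl, rfl, h⟩

theorem sigmaGraph_adj_left (i : ι) (x : X i) (q : Σ i, X i) (h : (sigmaGraph G).Adj ⟨i, x⟩ q) :
    ∃ y, q = ⟨i, y⟩ ∧ (G i).Adj x y := by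
  obtain ⟨j, a, b, h1, h2, h3⟩ := h
  rw [Sigma.mk.injEq] at h1
  obtain ⟨rfl, h1⟩ := h1
  obtain rfl := eq_of_heq h1
  exact ⟨b, h2, h3⟩

/-- The disjoint union of a family of relations. -/
def sigmaRel (R : ∀ i, X i → X i → Prop) (p q : Σ i, X i) : Prop :=
  ∃ (i : ι) (x y : X i), p = ⟨i, x⟩ ∧ q = ⟨i, y⟩ ∧ R i x y

theorem sigmaRel_iff (R : ∀ i, X i → X i → Prop) (i : ι) (x y : X i) :
    sigmaRel R ⟨i, x⟩ ⟨i, y⟩ ↔ R i x y := by
  constructor
  · rintro ⟨j, a, b, h1, h2, h3⟩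
    rw [Sigma.mk.injEq] at h1 h2
    obtain ⟨rfl, h1⟩ := h1
    obtain rfl := eq_of_heq h1
    obtain rfl := eq_of_heq h2.2
    exact h3
  · intro h
    exact ⟨i, x, y, rfl, rfl, h⟩

theorem sigmaRel_left (R : ∀ i, X i → X i → Prop) (i : ι) (x : X i) (q : Σ i, X i)
    (h : sigmaRel R ⟨i, x⟩ q) : ∃ y, q = ⟨i, y⟩ ∧ R i x y := by
  obtain ⟨j, a, b, h1, h2, h3⟩ := h
  rw [Sigma.mk.injEq] at h1
  obtain ⟨rfl, h1⟩ := h1
  obtain rfl := eq_of_heq h1
  exact ⟨b, h2, h3⟩

theorem sigmaRel_equivalence (R : ∀ i, X i → X i → Prop) (hR : ∀ i, Equivalence (R i)) :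
    Equivalence (sigmaRel R) := by
  refine ⟨?_, ?_, ?_⟩
  · rintro ⟨i, x⟩
    exact ⟨i, x, x, rfl, rfl, (hR i).refl x⟩
  · rintro _ _ ⟨i, x, y, rfl, rfl, h⟩
    exact ⟨i, y, x, rfl, rfl, (hR i).symm h⟩
  · rintro _ _ r ⟨i, x, y, rfl, rfl, h⟩ h'
    obtain ⟨z, rfl, hz⟩ := sigmaRel_left R i y r h'
    exact ⟨i, x, z, rfl, rfl, (hR i).trans h hz⟩

theorem sigmaRel_measurable [Countable ι] [∀ i, MeasurableSpace (X i)]
    [∀ i, StandardBorelSpace (X i)] (R : ∀ i, X i → X i → Prop)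
    (hR : ∀ i, MeasurableSet {p : X i × X i | R i p.1 p.2}) :
    MeasurableSet {p : (Σ i, X i) × (Σ i, X i) | sigmaRel R p.1 p.2} := by
  have : {p : (Σ i, X i) × (Σ i, X i) | sigmaRel R p.1 p.2} =
      ⋃ i, Prod.map (Sigma.mk i) (Sigma.mk i) '' {p : X i × X i | R i p.1 p.2} := by
    ext ⟨p, q⟩
    simp only [mem_iUnion, mem_image]
    constructor
    · rintro ⟨i, x, y, h1, h2, h3⟩
      exact ⟨i, (x, y), h3, by simp only [Prod.map_apply]; rw [← h1, ← h2]⟩
    · rintro ⟨i, ⟨x, y⟩, h, heq⟩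
      rw [Prod.map_apply, Prod.mk.injEq] at heq
      exact ⟨i, x, y, heq.1.symm, heq.2.symm, h⟩
  rw [this]
  apply MeasurableSet.iUnion
  intro i
  have he : MeasurableEmbedding (Sigma.mk i : X i → Σ i, X i) := by
    refine Measurable.measurableEmbedding ?_ sigma_mk_injective
    intro s hs
    exact (measurableSet_sigma_iff s).1 hs i
  exact (he.prodMap he).measurableSet_image.2 (hR i)

theorem sigmaRel_finite (R : ∀ i, X i → X i → Prop) (hR : ∀ i x, {y | R i x y}.Finite)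
    (p : Σ i, X i) : {q | sigmaRel R p q}.Finite := by
  obtain ⟨i, x⟩ := p
  refine ((hR i x).image (Sigma.mk i)).subset ?_
  intro q hq
  obtain ⟨y, rfl, hy⟩ := sigmaRel_left R i x q hq
  exact ⟨y, hy, rfl⟩

theorem sigmaGraph_measurable [Countable ι] [∀ i, MeasurableSpace (X i)]
    [∀ i, StandardBorelSpace (X i)]
    (hG : ∀ i, MeasurableSet {p : X i × X i | (G i).Adj p.1 p.2}) :
    MeasurableSet {p : (Σ i, X i) × (Σ i, X i) | (sigmaGraph G).Adj p.1 p.2} :=
  sigmaRel_measurable (fun i => (G i).Adj) hG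

theorem sigmaGraph_ncard (h3 : ∀ i (x : X i), ((G i).neighborSet x).ncard = 3)
    (p : Σ i, X i) : ((sigmaGraph G).neighborSet p).ncard = 3 := by
  obtain ⟨i, x⟩ := p
  have : (sigmaGraph G).neighborSet ⟨i, x⟩ = Sigma.mk i '' (G i).neighborSet x := by
    ext q
    simp only [SimpleGraph.mem_neighborSet, mem_image]
    constructor
    · intro h
      obtain ⟨y, rfl, h'⟩ := sigmaGraph_adj_left G i x q h
      exact ⟨y, h', rfl⟩
    · rintro ⟨y, hy, rfl⟩
      exact (sigmaGraph_adj G i x y).2 hy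
  rw [this, Set.ncard_image_of_injective _ sigma_mk_injective, h3]

theorem sigmaGraph_reachable (i : ι) (x : X i) (q : Σ i, X i) :
    (sigmaGraph G).Reachable ⟨i, x⟩ q ↔ ∃ y, q = ⟨i, y⟩ ∧ (G i).Reachable x y := by
  constructor
  · intro h
    rw [SimpleGraph.reachable_iff_reflTransGen] at h
    induction h with
    | refl => exact ⟨x, rfl, SimpleGraph.Reachable.refl _⟩
    | tail _ hadj ih =>
      obtain ⟨y, rfl, hy⟩ := ih
      obtain ⟨z, rfl, hz⟩ := sigmaGraph_adj_left G i y _ hadj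
      exact ⟨z, rfl, hy.trans hz.reachable⟩
  · rintro ⟨y, rfl, h⟩
    let φ : (G i) →g (sigmaGraph G) :=
      { toFun := Sigma.mk i, map_rel' := fun {a b} h => (sigmaGraph_adj G i a b).2 h }
    exact h.map φ

theorem sigmaGraph_acyclic (hG : ∀ i, (G i).IsAcyclic) : (sigmaGraph G).IsAcyclic := by
  rw [SimpleGraph.isAcyclic_iff_forall_adj_isBridge]
  rintro ⟨i, x⟩ q h
  obtain ⟨y, rfl, hxy⟩ := sigmaGraph_adj_left G i x q h
  have hb := (SimpleGraph.isAcyclic_iff_forall_adj_isBridge.1 (hG i)) hxy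
  rw [SimpleGraph.isBridge_iff] at hb ⊢
  intro hr
  apply hb
  rw [SimpleGraph.reachable_iff_reflTransGen] at hr
  have key : ∀ q : Σ i, X i, Relation.ReflTransGen
      ((sigmaGraph G).deleteEdges {s((⟨i, x⟩ : Σ i, X i), ⟨i, y⟩)}).Adj ⟨i, x⟩ q →
      ∃ z, q = ⟨i, z⟩ ∧ ((G i).deleteEdges {s(x, y)}).Reachable x z := by
    intro q hq
    induction hq with
    | refl => exact ⟨x, rfl, SimpleGraph.Reachable.refl _⟩
    | tail _ hadj ih =>
      obtain ⟨z, rfl, hz⟩ := ih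
      rw [SimpleGraph.deleteEdges_adj] at hadj
      obtain ⟨w, rfl, hw⟩ := sigmaGraph_adj_left G i z _ hadj.1
      refine ⟨w, rfl, hz.trans (SimpleGraph.Adj.reachable ?_)⟩
      rw [SimpleGraph.deleteEdges_adj]
      refine ⟨hw, fun hmem => hadj.2 ?_⟩
      rw [Set.mem_singleton_iff] at hmem ⊢
      rw [Sym2.eq_iff] at hmem ⊢
      rcases hmem with ⟨rfl, rfl⟩ | ⟨rfl, rfl⟩
      · exact Or.inl ⟨rfl, rfl⟩
      · exact Or.inr ⟨rfl, rfl⟩
  obtain ⟨z, hz, hzr⟩ := key _ hr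
  rw [Sigma.mk.injEq] at hz
  obtain rfl := eq_of_heq hz.2
  exact hzr

end

/-- A countable disjoint union of hyperfinite Borel 3-regular forests is one. -/
theorem sigmaGraph_isHFForest {ι : Type} [Countable ι] {X : ι → Type}
    [∀ i, MeasurableSpace (X i)] [∀ i, StandardBorelSpace (X i)]
    (G : ∀ i, SimpleGraph (X i)) (hG : ∀ i, IsHFForest (X i) (G i)) :
    IsHFForest (Σ i, X i) (sigmaGraph G) := by
  refine ⟨sigmaGraph_measurable G fun i => (hG i).1,
    sigmaGraph_ncard G fun i => (hG i).2.1, sigmaGraph_acyclic G fun i => (hG i).2.2.1, ?_⟩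
  choose F h1 h2 h3 h4 h5 using fun i => (hG i).2.2.2
  refine ⟨fun m => sigmaRel fun i => F i m, fun m => sigmaRel_equivalence _ fun i => h1 i m,
    fun m => sigmaRel_measurable _ fun i => h2 i m, fun m => sigmaRel_finite _ fun i => h3 i m,
    ?_, ?_⟩
  · rintro m _ _ ⟨i, x, y, rfl, rfl, h⟩
    exact ⟨i, x, y, rfl, rfl, h4 i m x y h⟩
  · rintro ⟨i, x⟩ q
    rw [sigmaGraph_reachable]
    constructor
    · rintro ⟨y, rfl, h⟩
      obtain ⟨m, hm⟩ := (h5 i x y).1 h
      exact ⟨m, i, x, y, rfl, rfl, hm⟩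
    · rintro ⟨m, hm⟩
      obtain ⟨y, rfl, hy⟩ := sigmaRel_left _ i x q hm
      exact ⟨y, rfl, (h5 i x y).2 ⟨m, hy⟩⟩

/-- Restriction of a homomorphism of the disjoint union to a component. -/
theorem KneserHom.restrict {ι : Type} {X : ι → Type}
    [∀ i, MeasurableSpace (X i)]
    (G : ∀ i, SimpleGraph (X i)) {n k : ℕ} (h : KneserHom (sigmaGraph G) n k) (i : ι) :
    KneserHom (G i) n k := by
  obtain ⟨f, h1, h2, h3⟩ := h
  refine ⟨fun x => f ⟨i, x⟩, fun x => h1 _, fun s => ?_, fun x y hxy => h3 _ _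
    ((sigmaGraph_adj G i x y).2 hxy)⟩
  exact (measurableSet_sigma_iff (f ⁻¹' {s})).1 (h2 s) i

end Pool.Agent.Helper47.Kneser
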