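import Pool.Agent.Helper47.Kneser.Defs
import Pool.Agent.Helper47.Kneser.Meas
import Pool.Agent.Helper47.Kneser.SigmaG
import Pool.Agent.Helper47.Kneser.Recolour

/-!
The equivalence of Kneser and Schrijver homomorphisms for hyperfinite 3-regular Borel forests.
-/

set_option autoImplicit false

open MeasureTheory Set

namespace Pool.Agent.Helper47.Kneser

/-- A map to a finite type all of whose membership sets are measurable has measurable fibres. -/
theorem measurable_fibre {X : Type*} [MeasurableSpace X] {N : ℕ} (T : X → Finset (Fin N))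
    (hT : ∀ z, MeasurableSet {x | z ∈ T x}) (s : Finset (Fin N)) :
    MeasurableSet (T ⁻¹' {s}) := by
  have : T ⁻¹' {s} = ⋂ z, {x | z ∈ T x ↔ z ∈ s} := by
    ext x
    simp only [mem_preimage, mem_singleton_iff, mem_iInter, Set.mem_ofPred_eq, Finset.ext_iff]
  rw [this]
  apply MeasurableSet.iInter
  intro z
  by_cases hz : z ∈ s
  · have : {x | z ∈ T x ↔ z ∈ s} = {x | z ∈ T x} := by
      ext x; simp [hz]
    rw [this]; exact hT z
  · have : {x | z ∈ T x ↔ z ∈ s} = {x | z ∈ T x}ᶜ := by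
      ext x; simp [hz]
    rw [this]; exact (hT z).compl

theorem measurable_mem_of_fibre {X : Type*} [MeasurableSpace X] {N : ℕ} (T : X → Finset (Fin N))
    (hT : ∀ s, MeasurableSet (T ⁻¹' {s})) (z : Fin N) :
    MeasurableSet {x | z ∈ T x} := by
  have : {x | z ∈ T x} = ⋃ s ∈ {s : Finset (Fin N) | z ∈ s}, T ⁻¹' {s} := by
    ext x
    simp
  rw [this]
  exact MeasurableSet.biUnion (Set.to_countable _) fun s _ => hT s

theorem measurable_fibre_comp {X : Type*} [MeasurableSpace X] {N N' : ℕ}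
    (T : X → Finset (Fin N)) (hT : ∀ s, MeasurableSet (T ⁻¹' {s}))
    (g : Finset (Fin N) → Finset (Fin N')) (s : Finset (Fin N')) :
    MeasurableSet ((fun x => g (T x)) ⁻¹' {s}) := by
  have : (fun x => g (T x)) ⁻¹' {s} = ⋃ t ∈ {t : Finset (Fin N) | g t = s}, T ⁻¹' {t} := by
    ext x
    simp
  rw [this]
  exact MeasurableSet.biUnion (Set.to_countable _) fun s _ => hT s

open Classical in
/-- The colours occurring at all neighbours. -/
noncomputable def zero {X : Type*} (G : SimpleGraph X) {n : ℕ} (f : X → Finset (Fin n)) (x : X) :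
    Finset (Fin n) :=
  Finset.univ.filter fun i => ∀ y, G.Adj x y → i ∈ f y

theorem mem_zero {X : Type*} (G : SimpleGraph X) {n : ℕ} (f : X → Finset (Fin n)) (x : X)
    (i : Fin n) : i ∈ zero G f x ↔ ∀ y, G.Adj x y → i ∈ f y := by
  unfold zero
  simp only [Finset.mem_filter, Finset.mem_univ, true_and]

theorem zero_card {X : Type*} (G : SimpleGraph X) (h3 : ∀ x, (G.neighborSet x).ncard = 3)
    {n k : ℕ} (f : X → Finset (Fin n)) (hk : ∀ x, (f x).card = k)
    (hf : ∀ x y, G.Adj x y → Disjoint (f x) (f y)) (x : X) :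
    2 * (3 * k - n) ≤ (f x).card + (zero G f x).card := by
  classical
  obtain ⟨a, b, c, hab, hac, hbc, habc⟩ := Set.ncard_eq_three.1 (h3 x)
  have ha : G.Adj x a := by
    have : a ∈ G.neighborSet x := by rw [habc]; simp
    exact this
  have hb : G.Adj x b := by
    have : b ∈ G.neighborSet x := by rw [habc]; simp
    exact this
  have hc : G.Adj x c := by
    have : c ∈ G.neighborSet x := by rw [habc]; simp
    exact this
  have hN : ∀ y, G.Adj x y → y = a ∨ y = b ∨ y = c := by
    intro y hy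
    have : y ∈ G.neighborSet x := hy
    rw [habc] at this
    simpa using this
  have hzero : zero G f x = f a ∩ f b ∩ f c := by
    ext i
    rw [mem_zero, Finset.mem_inter, Finset.mem_inter]
    constructor
    · intro h; exact ⟨⟨h a ha, h b hb⟩, h c hc⟩
    · rintro ⟨⟨h1, h2⟩, h3⟩ y hy
      rcases hN y hy with rfl | rfl | rfl
      · exact h1
      · exact h2
      · exact h3
  -- everything inside the complement of `f x`
  have hsub : ∀ y, G.Adj x y → f y ⊆ (f x)ᶜ := by
    intro y hy i hi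
    rw [Finset.mem_compl]
    intro hi'
    exact (Finset.disjoint_left.1 (hf x y hy)) hi' hi
  have hcompl : ((f x)ᶜ).card = n - k := by
    rw [Finset.card_compl, Fintype.card_fin, hk]
  have hkn : k ≤ n - k := by
    rw [← hcompl, ← hk a]
    exact Finset.card_le_card (hsub a ha)
  have hkn' : k ≤ n := by
    have := Finset.card_le_univ (f x)
    rw [hk, Fintype.card_fin] at this
    exact this
  have hA : ∀ y, G.Adj x y → ((f x)ᶜ \ f y).card = n - k - k := by
    intro y hy
    rw [Finset.card_sdiff_of_subset (hsub y hy), hcompl, hk]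
  have hcov : (f x)ᶜ ⊆ (f a ∩ f b ∩ f c) ∪ (((f x)ᶜ \ f a) ∪ (((f x)ᶜ \ f b) ∪
      ((f x)ᶜ \ f c))) := by
    intro i hi
    simp only [Finset.mem_union, Finset.mem_inter, Finset.mem_sdiff]
    by_cases h1 : i ∈ f a <;> by_cases h2 : i ∈ f b <;> by_cases h3 : i ∈ f c <;>
      simp [h1, h2, h3, hi]
  have h1 := Finset.card_le_card hcov
  have h2 := Finset.card_union_le (f a ∩ f b ∩ f c) (((f x)ᶜ \ f a) ∪ (((f x)ᶜ \ f b) ∪
      ((f x)ᶜ \ f c)))
  have h3 := Finset.card_union_le ((f x)ᶜ \ f a) (((f x)ᶜ \ f b) ∪ ((f x)ᶜ \ f c))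
  have h4 := Finset.card_union_le ((f x)ᶜ \ f b) ((f x)ᶜ \ f c)
  rw [hA a ha] at h3
  rw [hA b hb, hA c hc] at h4
  rw [hcompl] at h1
  rw [hzero, hk]
  omega

theorem zero_disjoint {X : Type*} (G : SimpleGraph X) (h3 : ∀ x, (G.neighborSet x).ncard = 3)
    {n : ℕ} (f : X → Finset (Fin n))
    (hf : ∀ x y, G.Adj x y → Disjoint (f x) (f y)) (x : X) :
    Disjoint (f x) (zero G f x) := by
  have hne : (G.neighborSet x).Nonempty := by
    rw [← Set.ncard_pos (Set.finite_of_ncard_ne_zero (by rw [h3]; norm_num)), h3]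
    norm_num
  obtain ⟨y, hy⟩ := hne
  rw [Finset.disjoint_left]
  intro i hi hi'
  exact Finset.disjoint_left.1 (hf x y hy) hi ((mem_zero G f x i).1 hi' y hy)

theorem zero_zero_disjoint {X : Type*} (G : SimpleGraph X)
    {n : ℕ} (f : X → Finset (Fin n))
    (hf : ∀ x y, G.Adj x y → Disjoint (f x) (f y)) (x y : X) (hxy : G.Adj x y) :
    Disjoint (zero G f x) (zero G f y) := by
  rw [Finset.disjoint_left]
  intro i hi hi'
  exact Finset.disjoint_left.1 (hf x y hxy) ((mem_zero G f y i).1 hi' x hxy.symm)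
    ((mem_zero G f x i).1 hi y hxy)

theorem zero_measurable {X : Type*} [MeasurableSpace X] [StandardBorelSpace X]
    (G : SimpleGraph X) (hG : MeasurableSet {p : X × X | G.Adj p.1 p.2})
    (h3 : ∀ x, (G.neighborSet x).ncard = 3) {n : ℕ} (f : X → Finset (Fin n))
    (hm : ∀ s, MeasurableSet (f ⁻¹' {s})) (i : Fin n) :
    MeasurableSet {x | i ∈ zero G f x} := by
  have := (measurableSet_exists_adj G hG h3 (measurable_mem_of_fibre f hm i).compl).compl
  convert this using 1
  ext x
  simp only [Set.mem_ofPred_eq, mem_compl_iff, mem_zero, not_exists, not_and, not_not]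

/-- **Recolouring.** -/
theorem recolour {X : Type} [MeasurableSpace X] [StandardBorelSpace X]
    (G : SimpleGraph X) (hG : MeasurableSet {p : X × X | G.Adj p.1 p.2})
    (h3 : ∀ x, (G.neighborSet x).ncard = 3) {n k : ℕ} (h : KneserHom G n k) (m k' : ℕ)
    (hm : 0 < m) (hk' : k' ≤ (m - 1) * (2 * (3 * k - n))) :
    SchrijverHom G (n * (2 * m)) k' := by
  obtain ⟨f, hk, hfm, hf⟩ := h
  have hcard : ∀ x, k' ≤ (comb m (f x) (zero G f x)).card := by
    intro x
    refine hk'.trans (le_trans ?_ (comb_card m hm (f x) (zero G f x)))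
    exact Nat.mul_le_mul_left _ (zero_card G h3 f hk hf x)
  refine ⟨fun x => pick k' (comb m (f x) (zero G f x)), fun x => pick_card _ _ (hcard x),
    ?_, ?_, ?_⟩
  · intro x i hi j hj
    exact comb_stable m _ _ (zero_disjoint G h3 f hf x) i j (pick_subset _ _ hi)
      (pick_subset _ _ hj)
  · intro s
    apply measurable_fibre_comp (fun x => comb m (f x) (zero G f x))
    intro t
    apply measurable_fibre
    intro z
    have h1 : MeasurableSet {x | (finProdFinEquiv.symm z).1 ∈ f x} :=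
      measurable_mem_of_fibre f hfm _
    have h2 : MeasurableSet {x | (finProdFinEquiv.symm z).1 ∈ zero G f x} :=
      zero_measurable G hG h3 f hfm _
    have : {x | z ∈ comb m (f x) (zero G f x)} =
        {x | (z : ℕ) % (2 * m) ≠ 0 ∧
    ((finProdFinEquiv.symm z).1 ∈ f x ∧ (z : ℕ) % (2 * m) % 2 = 1 ∨
      (finProdFinEquiv.symm z).1 ∈ zero G f x ∧ (z : ℕ) % (2 * m) % 2 = 0)} := by
      ext x
      simp only [comb, Finset.mem_filter, Finset.mem_univ, true_and, Set.mem_ofPred_eq]
    rw [this]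
    refine (MeasurableSet.const _).inter (MeasurableSet.union ?_ ?_)
    · exact h1.inter (MeasurableSet.const _)
    · exact h2.inter (MeasurableSet.const _)
  · intro x y hxy
    have := comb_disjoint m (f x) (zero G f x) (f y) (zero G f y) (hf x y hxy)
      (zero_zero_disjoint G f hf x y hxy)
    exact Finset.disjoint_of_subset_left (pick_subset _ _)
      (Finset.disjoint_of_subset_right (pick_subset _ _) this)

theorem parameters (n k : ℕ) (ε ε' : ℝ) (hε' : 0 < ε') (h1 : ε' ≤ 1 / 4) (h2 : 4 * ε' ≤ ε)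
    (hk : 0 < k) (hn : (n : ℝ) < (2 + ε') * k) :
    ∃ k0 : ℕ, ∀ k' ≥ k0, ∃ m : ℕ, 0 < m ∧ k' ≤ (m - 1) * (2 * (3 * k - n)) ∧
      ((n * (2 * m) : ℕ) : ℝ) < (2 + ε) * k' := by
  have hkR : (0 : ℝ) < k := by exact_mod_cast hk
  have h3 : (n : ℝ) < 3 * k := by nlinarith
  have h3N : n < 3 * k := by exact_mod_cast h3
  set D : ℕ := 3 * k - n with hD
  have hDpos : 0 < D := by omega
  have hDR : (D : ℝ) = 3 * k - n := by
    rw [hD, Nat.cast_sub h3N.le]; push_cast; ring
  have hDRpos : (0 : ℝ) < D := by exact_mod_cast hDpos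
  have hmargin : (n : ℝ) < (2 + ε) * D := by
    rw [hDR]
    have hε : 0 < ε := by linarith
    nlinarith [mul_pos hε hkR, mul_pos hε' hkR, mul_nonneg hε.le (sub_nonneg.2 h1),
      mul_nonneg (mul_nonneg hε.le (sub_nonneg.2 h1)) hkR.le]
  set μ : ℝ := (2 + ε) - n / D with hμ
  have hμpos : 0 < μ := by
    rw [hμ, sub_pos, div_lt_iff₀ hDRpos]
    exact hmargin
  obtain ⟨k0, hk0⟩ := exists_nat_gt (4 * n / μ)
  refine ⟨k0, fun k' hk' => ⟨k' / (2 * D) + 2, Nat.succ_pos _, ?_, ?_⟩⟩
  · have := Nat.div_add_mod k' (2 * D)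
    have hlt := Nat.mod_lt k' (show 0 < 2 * D by omega)
    have : k' < (k' / (2 * D) + 1) * (2 * D) := by
      calc k' = 2 * D * (k' / (2 * D)) + k' % (2 * D) := this.symm
        _ < 2 * D * (k' / (2 * D)) + 2 * D := Nat.add_lt_add_left hlt _
        _ = (k' / (2 * D) + 1) * (2 * D) := by ring
    have h4 : k' / (2 * D) + 2 - 1 = k' / (2 * D) + 1 := rfl
    rw [h4]
    exact this.le
  · push_cast
    have hk'R : (4 * n / μ : ℝ) < k' := lt_of_lt_of_le hk0 (by exact_mod_cast hk')
    rw [div_lt_iff₀ hμpos] at hk'R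
    have hdiv : ((k' / (2 * D) : ℕ) : ℝ) ≤ k' / (2 * D) := by
      have := @Nat.cast_div_le ℝ _ _ _ k' (2 * D)
      push_cast at this
      exact this
    have hnn : (0 : ℝ) ≤ n := Nat.cast_nonneg n
    calc (n : ℝ) * (2 * (((k' / (2 * D) : ℕ) : ℝ) + 2))
        ≤ n * (2 * (k' / (2 * D) + 2)) := by gcongr
      _ = k' * (n / D) + 4 * n := by field_simp; ring
      _ < k' * (n / D) + k' * μ := by linarith
      _ = (2 + ε) * k' := by rw [hμ]; ring

/-- Uniformity: by taking a countable disjoint union of counterexamples, the parameters in a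
positive answer can be chosen independently of the forest. -/
theorem uniform_kneser
    (hQ : ∀ (X : Type) [MeasurableSpace X] [StandardBorelSpace X] (G : SimpleGraph X),
      IsHFForest X G → ∀ ε : ℝ, 0 < ε → ∃ n k : ℕ, 0 < k ∧ (n : ℝ) < (2 + ε) * (k : ℝ) ∧
        KneserHom G n k) (ε : ℝ) (hε : 0 < ε) :
    ∃ n k : ℕ, 0 < k ∧ (n : ℝ) < (2 + ε) * (k : ℝ) ∧
      ∀ (X : Type) [MeasurableSpace X] [StandardBorelSpace X] (G : SimpleGraph X),
        IsHFForest X G → KneserHom G n k := by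
  by_contra hcon
  push Not at hcon
  let ι : Type := {p : ℕ × ℕ // 0 < p.2 ∧ (p.1 : ℝ) < (2 + ε) * (p.2 : ℝ)}
  choose X mX sX G hG hno using fun i : ι => hcon i.1.1 i.1.2 i.2.1 i.2.2
  obtain ⟨n, k, hk, hn, h⟩ := hQ (Σ i, X i) (sigmaGraph G) (sigmaGraph_isHFForest G hG) ε hε
  exact hno ⟨(n, k), hk, hn⟩ (h.restrict G ⟨(n, k), hk, hn⟩)

end Pool.Agent.Helper47.Kneser
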