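import Pool.Agent.Helper47.Kneser.Main

/-!
Borel partial 2-colourings of 3-regular forests and Kneser homomorphisms.
-/

set_option autoImplicit false

open MeasureTheory Set

namespace Pool.Agent.Helper47.Kneser

open Classical in
/-- The partial 2-colouring attached to a colour `i` of a Kneser colouring. -/
noncomputable def partCol {X : Type*} (G : SimpleGraph X) {n : ℕ} (f : X → Finset (Fin n))
    (i : Fin n) (x : X) : Option Bool :=
  if i ∈ f x then some true else if i ∈ zero G f x then some false else none

theorem twoCol_of_kneser {X : Type} [MeasurableSpace X] [StandardBorelSpace X]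
    (G : SimpleGraph X) (hG : MeasurableSet {p : X × X | G.Adj p.1 p.2})
    (h3 : ∀ x, (G.neighborSet x).ncard = 3) {n k : ℕ} (hk : 0 < k) (ε ε' : ℝ)
    (hn : (n : ℝ) < (2 + ε') * k) (hε : 3 * ε' ≤ ε) (hε0 : 0 < ε')
    (h : KneserHom G n k) : PartialTwoColourings G n ε := by
  classical
  obtain ⟨f, hfk, hfm, hf⟩ := h
  have m1 : ∀ i, MeasurableSet {x | i ∈ f x} := measurable_mem_of_fibre f hfm
  have m2 : ∀ i, MeasurableSet {x | i ∈ zero G f x} := zero_measurable G hG h3 f hfm
  refine ⟨partCol G f, ?_, ?_, ?_⟩
  · intro i s
    have e1 : partCol G f i ⁻¹' {some true} = {x | i ∈ f x} := by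
      ext x
      simp only [partCol, mem_preimage, mem_singleton_iff, Set.mem_ofPred_eq]
      by_cases h1 : i ∈ f x <;> by_cases h2 : i ∈ zero G f x <;> simp [h1, h2]
    have e2 : partCol G f i ⁻¹' {some false} = {x | i ∈ f x}ᶜ ∩ {x | i ∈ zero G f x} := by
      ext x
      simp only [partCol, mem_preimage, mem_singleton_iff, mem_inter_iff, mem_compl_iff,
        Set.mem_ofPred_eq]
      by_cases h1 : i ∈ f x <;> by_cases h2 : i ∈ zero G f x <;> simp [h1, h2]
    have e3 : partCol G f i ⁻¹' {none} = {x | i ∈ f x}ᶜ ∩ {x | i ∈ zero G f x}ᶜ := by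
      ext x
      simp only [partCol, mem_preimage, mem_singleton_iff, mem_inter_iff, mem_compl_iff,
        Set.mem_ofPred_eq]
      by_cases h1 : i ∈ f x <;> by_cases h2 : i ∈ zero G f x <;> simp [h1, h2]
    rcases s with _ | b
    · rw [e3]; exact (m1 i).compl.inter (m2 i).compl
    · cases b
      · rw [e2]; exact (m1 i).compl.inter (m2 i)
      · rw [e1]; exact m1 i
  · intro i x y hxy
    have d1 := Finset.disjoint_left.1 (hf x y hxy)
    have d2 := Finset.disjoint_left.1 (zero_zero_disjoint G f hf x y hxy)
    unfold partCol
    by_cases h1 : i ∈ f x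
    · have h1' : i ∉ f y := d1 h1
      by_cases h2 : i ∈ zero G f y
      · right; simp [h1, h1', h2]
      · right; simp [h1, h1', h2]
    · by_cases h2 : i ∈ zero G f x
      · have h2' : i ∈ f y := (mem_zero G f x i).1 h2 y hxy
        right; simp [h1, h2, h2']
      · left; simp [h1, h2]
  · intro x
    have hcard : (Finset.univ.filter fun i => partCol G f i x = none).card +
        ((f x).card + (zero G f x).card) = n := by
      have hsplit : Finset.univ.filter (fun i => partCol G f i x = none) =
          (f x ∪ zero G f x)ᶜ := by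
        ext i
        rw [Finset.mem_filter, Finset.mem_compl, Finset.mem_union]
        simp only [Finset.mem_univ, true_and, partCol]
        by_cases h1 : i ∈ f x <;> by_cases h2 : i ∈ zero G f x <;> simp [h1, h2]
      rw [hsplit, Finset.card_compl, Fintype.card_fin,
        ← Finset.card_union_of_disjoint (zero_disjoint G h3 f hf x)]
      have := Finset.card_le_univ (f x ∪ zero G f x)
      rw [Fintype.card_fin] at this
      omega
    have hz := zero_card G h3 f hfk hf x
    have hkn : k ≤ n := by
      have := Finset.card_le_univ (f x)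
      rw [hfk, Fintype.card_fin] at this
      exact this
    have h4 : (Finset.univ.filter fun i => partCol G f i x = none).card + 2 * (3 * k - n) ≤ n := by
      omega
    have h5 : (Finset.univ.filter fun i => partCol G f i x = none).card + 6 * k ≤ 3 * n := by
      omega
    have h6 : ((Finset.univ.filter fun i => partCol G f i x = none).card : ℝ) + 6 * k ≤ 3 * n := by
      exact_mod_cast h5
    have hkR : (0 : ℝ) < k := by exact_mod_cast hk
    have hknR : (k : ℝ) ≤ n := by exact_mod_cast hkn
    nlinarith [mul_nonneg (sub_nonneg.2 hε) (Nat.cast_nonneg (α := ℝ) n),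
      mul_nonneg hε0.le (sub_nonneg.2 hknR)]

/-- The set of coloured pairs, as a subset of `Fin (N * 2)`. -/
def pairSet {X : Type*} {N : ℕ} (c : Fin N → X → Option Bool) (x : X) : Finset (Fin (N * 2)) :=
  Finset.univ.filter fun z =>
    c (finProdFinEquiv.symm z).1 x = some (decide ((finProdFinEquiv.symm z).2 = 1))

theorem pairSet_card {X : Type*} {N : ℕ} (c : Fin N → X → Option Bool) (x : X) :
    (pairSet c x).card + (Finset.univ.filter fun i => c i x = none).card = N := by
  classical
  have h1 : (pairSet c x).card = (Finset.univ.filter fun i => c i x ≠ none).card := by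
    apply Finset.card_bij (fun z _ => (finProdFinEquiv.symm z).1)
    · intro z hz
      rw [pairSet, Finset.mem_filter] at hz
      rw [Finset.mem_filter]
      refine ⟨Finset.mem_univ _, ?_⟩
      rw [hz.2]; simp
    · intro z hz w hw hzw
      rw [pairSet, Finset.mem_filter] at hz hw
      have h1 := hz.2
      have h2 := hw.2
      rw [hzw, h2] at h1
      apply finProdFinEquiv.symm.injective
      refine Prod.ext hzw ?_
      have h3 : decide ((finProdFinEquiv.symm w).2 = 1) =
        decide ((finProdFinEquiv.symm z).2 = 1) := by
        exact Option.some.inj h1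
      have e1 : (finProdFinEquiv.symm w).2 = 0 ∨ (finProdFinEquiv.symm w).2 = 1 := by omega
      have e2 : (finProdFinEquiv.symm z).2 = 0 ∨ (finProdFinEquiv.symm z).2 = 1 := by omega
      rcases e1 with e1 | e1 <;> rcases e2 with e2 | e2 <;> rw [e1, e2] at h3 ⊢ <;>
        simp at h3
    · intro i hi
      rw [Finset.mem_filter] at hi
      obtain ⟨b, hb⟩ := Option.ne_none_iff_exists'.1 hi.2
      refine ⟨finProdFinEquiv (i, if b then 1 else 0), ?_, ?_⟩
      · rw [pairSet, Finset.mem_filter]
        refine ⟨Finset.mem_univ _, ?_⟩
        rw [Equiv.symm_apply_apply, hb]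
        cases b <;> simp
      · rw [Equiv.symm_apply_apply]
  rw [h1]
  have h2 := Finset.card_filter_add_card_filter_not (s := (Finset.univ : Finset (Fin N)))
    (p := fun i => c i x = none)
  rw [Finset.card_univ, Fintype.card_fin] at h2
  have h3 : (Finset.univ.filter fun i => c i x ≠ none) =
    Finset.univ.filter fun i => ¬ c i x = none := rfl
  rw [h3]
  omega

theorem kneser_of_twoCol {X : Type} [MeasurableSpace X] (G : SimpleGraph X) {N k : ℕ} {ε : ℝ}
    (hk : (k : ℝ) < (1 - ε) * N + 1) (h : PartialTwoColourings G N ε) : KneserHom G (N * 2) k := by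
  obtain ⟨c, hm, hc, hN⟩ := h
  have hcard : ∀ x, k ≤ (pairSet c x).card := by
    intro x
    have h1 := pairSet_card c x
    have h2 := hN x
    have h3 : ((pairSet c x).card : ℝ) + ((Finset.univ.filter fun i => c i x = none).card : ℝ) =
        N := by exact_mod_cast h1
    have h4 : (k : ℝ) < (pairSet c x).card + 1 := by nlinarith
    have h5 : k < (pairSet c x).card + 1 := by exact_mod_cast h4
    omega
  refine ⟨fun x => pick k (pairSet c x), fun x => pick_card _ _ (hcard x), ?_, ?_⟩
  · intro s
    apply measurable_fibre_comp (pairSet c)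
    intro t
    apply measurable_fibre
    intro z
    have : {x | z ∈ pairSet c x} = c (finProdFinEquiv.symm z).1 ⁻¹'
        {some (decide ((finProdFinEquiv.symm z).2 = 1))} := by
      ext x
      simp only [pairSet, Finset.mem_filter, Finset.mem_univ, true_and, Set.mem_ofPred_eq,
        mem_preimage, mem_singleton_iff]
    rw [this]
    exact hm _ _
  · intro x y hxy
    have : Disjoint (pairSet c x) (pairSet c y) := by
      rw [Finset.disjoint_left]
      intro z hz hw
      rw [pairSet, Finset.mem_filter] at hz hw
      rcases hc (finProdFinEquiv.symm z).1 x y hxy with h1 | h1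
      · rw [hz.2] at h1; simp at h1
      · rw [hz.2, hw.2] at h1; exact h1 rfl
    exact Finset.disjoint_of_subset_left (pick_subset _ _)
      (Finset.disjoint_of_subset_right (pick_subset _ _) this)

end Pool.Agent.Helper47.Kneser
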